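import Mathlib
import Pool.Agent.LGO.TG.Main
import Pool.Agent.LGO.S.Dich
import Pool.Agent.LGO.ZV.RatAll

/-!
# LGO/LK: linked coordinates, the pair theorem (MP_d83ecd_ag)

`Linked V a b`: the coordinates `a`, `b` of the curve `V` have a common pole, or different degrees, or their pole divisors differ by a torsion class, or
they are rational functions of one parameter.
`pair_of`: the pair theorem for linked coordinates, from `TG.pair_deg`, `TG.pair_t`, `ZV.pairHt_all` and the pair theorem for a common pole.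
-/

namespace Pool.Agent.LGO.LK

open MvPolynomial Filter Topology Pool.Agent.Hhelper14.ZP Pool.Agent.Hhelper14.ZPL Pool.Agent.LGO
  Pool.Agent.LGO.ZV Pool.Agent.LGO.TG

variable {n : ℕ} {V : Set (Fin n → ℂ)} {a b : Fin n}

/-- a common pole -/
def CPole (V : Set (Fin n → ℂ)) (a b : Fin n) : Prop := ∀ R : ℝ, ∃ x ∈ V, R < ‖x a‖ ∧ R < ‖x b‖

/-- different degrees -/
def DDeg (V : Set (Fin n → ℂ)) (a b : Fin n) : Prop := ∃ d₁ d₂ : ℕ, HasDeg V a d₁ ∧ HasDeg V b d₂ ∧ d₁ ≠ d₂

/-- the pole divisors differ by a torsion class -/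
def Tor (V : Set (Fin n → ℂ)) (a b : Fin n) : Prop :=
  ∃ (F G : MvPolynomial (Fin n) Qb) (p : ℕ) (C : ℝ) (E : Set (Fin n → ℂ)), TorG V a b F G p C E

/-- the coordinates are linked -/
def Linked (V : Set (Fin n → ℂ)) (a b : Fin n) : Prop := CPole V a b ∨ DDeg V a b ∨ Tor V a b ∨ RatPlane V a b

/-- without a common pole there is a point at infinity where exactly the coordinate `a` is infinite -/
theorem oneInf (h : ZV.Crv V) (hn : ¬ CPole V a b) : OneInfG V a b := by
  rw [CPole] at hn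
  push Not at hn
  obtain ⟨R, hR⟩ := hn
  obtain ⟨P, hP, hPa⟩ := exists_unbounded h.irr a (h.nc a)
  have hev : ∀ᶠ m in atTop, P m b ∈ Metric.closedBall (0 : ℂ) R := by
    filter_upwards [hPa.eventually_gt_atTop R] with m hm
    rw [mem_closedBall_zero_iff]
    exact hR _ (hP m) hm
  obtain ⟨β, -, φ, hφ, hlim⟩ := (isCompact_closedBall (0 : ℂ) R).tendsto_subseq' hev.frequently
  exact ⟨fun m => P (φ m), β, fun m => hP _, hPa.comp hφ.tendsto_atTop, hlim⟩

/-- the pair theorem for linked coordinates, from the pair theorem for a common pole -/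
theorem pair_of (h : ZV.Crv V) (hab : a ≠ b) (hc : CPole V a b → PairHt V a b) (hl : Linked V a b) :
    PairHt V a b := by
  rcases hl with hl | hl | ⟨F, G, p, C, E, hl⟩ | hl
  · exact hc hl
  · obtain ⟨d₁, d₂, h1, h2, h3⟩ := hl
    exact pair_deg h.irr h.kcl h.dim h.nc h1 h2 h3
  · by_cases hp : CPole V a b
    · exact hc hp
    · exact (pair_t h.irr h.kcl h.dim h.nc hl (oneInf h hp)).1
  · exact pairHt_all h hab hl

/-- linked without a common pole -/
def Linked0 (V : Set (Fin n → ℂ)) (a b : Fin n) : Prop := DDeg V a b ∨ (Tor V a b ∧ ¬ CPole V a b) ∨ RatPlane V a b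

theorem pair0 (h : ZV.Crv V) (hab : a ≠ b) (hl : Linked0 V a b) : PairHt V a b := by
  rcases hl with hl | ⟨⟨F, G, p, C, E, hl⟩, hp⟩ | hl
  · obtain ⟨d₁, d₂, h1, h2, h3⟩ := hl
    exact pair_deg h.irr h.kcl h.dim h.nc h1 h2 h3
  · exact (pair_t h.irr h.kcl h.dim h.nc hl (oneInf h hp)).1
  · exact pairHt_all h hab hl

/-- the common poles as sequences -/
theorem CPole.seq (h : CPole V a b) : ∃ P : ℕ → Fin n → ℂ, (∀ m, P m ∈ V) ∧
    Tendsto (fun m => ‖P m a‖) atTop atTop ∧ Tendsto (fun m => ‖P m b‖) atTop atTop := by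
  choose P hP hP' using fun m : ℕ => h m
  exact ⟨P, hP, tendsto_atTop_mono (fun m => (hP' m).1.le) tendsto_natCast_atTop_atTop,
    tendsto_atTop_mono (fun m => (hP' m).2.le) tendsto_natCast_atTop_atTop⟩

end Pool.Agent.LGO.LK
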