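import Mathlib
import Pool.Agent.LGO.LK.Pair
import Pool.Agent.LGO.FC.DimA
import Pool.Agent.LGO.KC.Main
import Pool.Agent.LGO.End.F

/-!
# LGO/LK: from the projections to three or four coordinates (MP_d83ecd_ag)

`cp i V`: the closure of the projection of `V` to the coordinates `i` (`FC/Defs.lean`).  `crv_cp`: it is a curve over `Qb` with nonconstant coordinates
without modular relations.  `pair_cp`: the pair theorem for the projection gives it for `V`.  `t1_one`, `t2_one`: the types 1 and 2 from the pair theorem, for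
a single triple or quadruple of coordinates.
-/

namespace Pool.Agent.LGO.LK

open MvPolynomial UpperHalfPlane Pool.Agent.Hhelper14.ZP Pool.Agent.Hhelper14.ZPL Pool.Agent.LGO
  Pool.Agent.LGO.ZF Pool.Agent.LGO.ZG Pool.Agent.LGO.ZV Pool.Agent.LGO.PWG Pool.Agent.LGO.FC Pool.Agent.ZPE

variable {n m : ℕ} {V : Set (Fin n → ℂ)}

theorem cp_kclosed (hV : KClosed V) (i : Fin m → Fin n) : KClosed (cp i V) := by
  rw [kclosed_iff]
  intro y hy
  rw [cp, mem_zeroLocus_iff]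
  intro f hf
  obtain ⟨s, g, rfl⟩ := exists_decomp f
  rw [aeval_sum_decomp]
  have h1 := split_relation hV s (fun j => rename i (g j)) (fun x hx => by
    have h2 := (mem_vanishingIdeal_iff.mp hf) (fun a => x (i a)) ⟨x, hx, rfl⟩
    rw [aeval_sum_decomp] at h2
    simp only [aeval_rename]
    exact h2)
  refine Finset.sum_eq_zero fun j hj => ?_
  have h3 : g j ∈ (vanishingIdeal Qb (cp i V) : Ideal (MvPolynomial (Fin m) Qb)) := by
    rw [mem_vanishingIdeal_iff]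
    intro z hz
    have hz' := mem_zeroLocus_iff.mp hz (map (algebraMap Qb ℂ) (g j)) (by
      rw [mem_vanishingIdeal_iff]
      rintro _ ⟨x, hx, rfl⟩
      have h4 := (mem_vanishingIdeal_iff.mp (h1 j hj)) x hx
      rw [aeval_rename] at h4
      rw [Pool.Agent.Hhelper14.ZPL.aeval_map_Qb]
      exact h4)
    rw [Pool.Agent.Hhelper14.ZPL.aeval_map_Qb] at hz'
    exact hz'
  rw [hy _ h3, mul_zero]

theorem crv_cp (h : ZV.Crv V) (hm : 0 < m) {i : Fin m → Fin n} (hi : Function.Injective i) :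
    ZV.Crv (cp i V) where
  irr := cp_irr h.irr
  kcl := cp_kclosed h.kcl i
  dim := dim_image h.irr h.dim ⟨⟨0, hm⟩, h.nc _⟩
  nc := by
    intro a c
    obtain ⟨x, hx, hne⟩ := h.nc (i a) c
    exact ⟨_, cp_mem hx, hne⟩
  nomod := by
    intro a b hab g hg
    obtain ⟨x, hx, hne⟩ := h.nomod _ _ (hi.ne hab) g hg
    exact ⟨_, cp_mem hx, hne⟩

theorem pair_cp (h : ZV.Crv V) {i : Fin m → Fin n} {a b : Fin m} (hp : PairHt (cp i V) a b) :
    PairHt V (i a) (i b) := by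
  obtain ⟨C, E, hE, h1⟩ := hp
  refine ⟨C, {x ∈ V | (fun k => x (i k)) ∈ E}, ?_, fun x hx hxE => h1 _ (cp_mem hx) fun h2 => hxE ⟨hx, h2⟩⟩
  exact cp_fin h.irr h.dim ⟨a, h.nc _⟩ hE fun x hx => ⟨hx.1, hx.2⟩

theorem t1_one (h : ZV.Crv V) (i : Fin 3 → Fin n) (hi : Function.Injective i)
    (hp : PairHt V (i 0) (i 1) ∨ PairHt V (i 0) (i 2) ∨ PairHt V (i 1) (i 2)) :
    {x ∈ V | (∀ a, NCM (x (i a))) ∧ HeckeRel (x (i 0)) (x (i 1)) ∧ HeckeRel (x (i 0)) (x (i 2))}.Finite := by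
  have key : ∃ (C : ℕ) (E : Set (Fin n → ℂ)), E.Finite ∧ ∀ x ∈ V, x ∉ E → (∀ a, NCM (x (i a))) →
      HeckeRel (x (i 0)) (x (i 1)) → HeckeRel (x (i 0)) (x (i 2)) → HB i C x := by
    rcases hp with h3 | h3 | h3
    · obtain ⟨C, E, hE, h4⟩ := hb_of_pair h i h3
      exact ⟨C, E, hE, fun x hx hxE hn h01 _ => h4 x hx hxE (hn _) (hn _) h01⟩
    · obtain ⟨C, E, hE, h4⟩ := hb_of_pair h i h3
      exact ⟨C, E, hE, fun x hx hxE hn _ h02 => h4 x hx hxE (hn _) (hn _) h02⟩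
    · obtain ⟨C, E, hE, h4⟩ := hb_of_pair h i h3
      exact ⟨C, E, hE, fun x hx hxE hn h01 h02 => h4 x hx hxE (hn _) (hn _)
        (HeckeRel.trans' (HeckeRel.symm' h01) h02)⟩
  obtain ⟨C, E, hE, h5⟩ := key
  exact t1_v h i hi C hE h5 ((allFin_v h).f1 i hi)

theorem t2_one (h : ZV.Crv V) (i : Fin 4 → Fin n) (hi : Function.Injective i)
    (hp : PairHt V (i 0) (i 1) ∨ PairHt V (i 2) (i 3)) :
    {x ∈ V | (∀ a, NCM (x (i a))) ∧ HeckeRel (x (i 0)) (x (i 1)) ∧ HeckeRel (x (i 2)) (x (i 3))}.Finite := by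
  have key : ∃ (C : ℕ) (E : Set (Fin n → ℂ)), E.Finite ∧ ∀ x ∈ V, x ∉ E → (∀ a, NCM (x (i a))) →
      HeckeRel (x (i 0)) (x (i 1)) → HeckeRel (x (i 2)) (x (i 3)) → HB i C x := by
    rcases hp with h3 | h3
    · obtain ⟨C, E, hE, h4⟩ := hb_of_pair h i h3
      exact ⟨C, E, hE, fun x hx hxE hn h01 _ => h4 x hx hxE (hn _) (hn _) h01⟩
    · obtain ⟨C, E, hE, h4⟩ := hb_of_pair h i h3
      exact ⟨C, E, hE, fun x hx hxE hn _ h23 => h4 x hx hxE (hn _) (hn _) h23⟩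
  obtain ⟨C, E, hE, h5⟩ := key
  exact t2_v h i hi C hE h5 ((allFin_v h).f2 i hi)

/-- the closure of `C ⊆ ℂ³` in `(ℙ¹)³` does not contain `(∞, ∞, ∞)`, and `C` has a point at infinity where exactly one coordinate is infinite and
one of the finite coordinates is a singular modulus or the two finite coordinates are isogenous -/
def Res (C : Set (Fin 3 → ℂ)) : Prop :=
  (∃ Q : MvPolynomial (Fin 3) ℂ, constantCoeff Q ≠ 0 ∧
    ∀ x ∈ C, (∀ a, x a ≠ 0) → eval (fun a => (x a)⁻¹) Q = 0) ∧ OneInfRes C id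

theorem t1_res (h : ZV.Crv V) (i : Fin 3 → Fin n) (hi : Function.Injective i) (hr : Res (cp i V)) :
    {x ∈ V | (∀ a, NCM (x (i a))) ∧ HeckeRel (x (i 0)) (x (i 1)) ∧ HeckeRel (x (i 0)) (x (i 2))}.Finite := by
  have hc := crv_cp h (by norm_num) hi
  obtain ⟨⟨Q, hQ0, hQ⟩, hr⟩ := hr
  have h1 := fin_flag hc.irr hc.kcl hc.dim id hc.nc hc.nomod hQ0 hQ (Or.inr (Or.inr (Or.inl hr)))
  refine cp_fin (i := i) h.irr h.dim ⟨0, h.nc _⟩ h1 ?_
  rintro x ⟨hx, h2, h3, h4⟩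
  refine ⟨hx, cp_mem hx, ?_, h3, h4⟩
  have h5 := h2 0
  rw [ncm_iff] at h5
  intro τ hτ hcm
  exact h5 ⟨τ, hcm, hτ.symm⟩

end Pool.Agent.LGO.LK
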