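import Mathlib
import Pool.Agent.LGO.LK.Types
import Pool.Agent.LGO.ZG.InC

/-!
# LGO/LK: the Zilber-Pink statement for curves over `Qb` with linked coordinates, constants allowed (MP_d83ecd_ag)
-/

namespace Pool.Agent.LGO.LK

open MvPolynomial UpperHalfPlane Pool.Agent.Hhelper14.ZP Pool.Agent.Hhelper14.ZPL Pool.Agent.LGO
  Pool.Agent.LGO.ZF Pool.Agent.LGO.ZG Pool.Agent.LGO.ZV Pool.Agent.LGO.PWG Pool.Agent.LGO.FC
  Pool.Agent.LGO.KC Pool.Agent.ZPE

variable {n m : ℕ} {V W : Set (Fin n → ℂ)}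

/-- the coordinate is not constant -/
def NonC (W : Set (Fin n → ℂ)) (k : Fin n) : Prop := ∀ c : ℂ, ∃ x ∈ W, x k ≠ c

/-- a condition on curves with two coordinates which implies the pair theorem -/
def PairC (L : ∀ {n : ℕ}, Set (Fin n → ℂ) → Fin n → Fin n → Prop) : Prop :=
  ∀ (n : ℕ) (V : Set (Fin n → ℂ)) (a b : Fin n), a ≠ b → ZV.Crv V → L V a b → PairHt V a b

variable {L : ∀ {n : ℕ}, Set (Fin n → ℂ) → Fin n → Fin n → Prop}

theorem pair_lk (hp : PairC L) (h : ZV.Crv V) {a b : Fin n} (hab : a ≠ b) (hl : L V a b) : PairHt V a b :=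
  hp n V a b hab h hl

theorem pairC0 : PairC Linked0 := fun _ _ _ _ hab h hl => pair0 h hab hl

/-- from the pair theorem for a common pole -/
theorem pairC_of (hp : PairC CPole) : PairC Linked := fun n V a b hab h hl => pair_of h hab (hp n V a b hab h) hl

/-- the condition on three coordinates -/
def Tri (L : ∀ {n : ℕ}, Set (Fin n → ℂ) → Fin n → Fin n → Prop) (C : Set (Fin 3 → ℂ)) : Prop :=
  L C 0 1 ∨ L C 0 2 ∨ L C 1 2 ∨ Res C

/-- **type 1** for a triple of coordinates -/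
theorem t1_lk (hp : PairC L) (h : ZV.Crv V) (i : Fin 3 → Fin n) (hi : Function.Injective i)
    (hl : Tri L (cp i V)) :
    {x ∈ V | (∀ a, NCM (x (i a))) ∧ HeckeRel (x (i 0)) (x (i 1)) ∧ HeckeRel (x (i 0)) (x (i 2))}.Finite := by
  have hc := crv_cp h (by norm_num) hi
  rcases hl with hl | hl | hl | hl
  · exact t1_one h i hi (Or.inl (pair_cp h (pair_lk hp hc (by decide) hl)))
  · exact t1_one h i hi (Or.inr (Or.inl (pair_cp h (pair_lk hp hc (by decide) hl))))
  · exact t1_one h i hi (Or.inr (Or.inr (pair_cp h (pair_lk hp hc (by decide) hl))))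
  · exact t1_res h i hi hl

/-- **type 2** for two disjoint pairs of coordinates -/
theorem t2_lk (hp : PairC L) (h : ZV.Crv V) (i : Fin 4 → Fin n) (hi : Function.Injective i)
    (hl : L (cp i V) 0 1 ∨ L (cp i V) 2 3) :
    {x ∈ V | (∀ a, NCM (x (i a))) ∧ HeckeRel (x (i 0)) (x (i 1)) ∧ HeckeRel (x (i 2)) (x (i 3))}.Finite := by
  have hc := crv_cp h (by norm_num) hi
  refine t2_one h i hi ?_
  rcases hl with hl | hl
  · exact Or.inl (pair_cp h (pair_lk hp hc (by decide) hl))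
  · exact Or.inr (pair_cp h (pair_lk hp hc (by decide) hl))

theorem cp_projσ {l : ℕ} (σ : Fin m → Fin n) (j : Fin l → Fin m) :
    cp j (proj σ W) = cp (fun a => σ (j a)) W := by
  have h : {y : Fin l → ℂ | ∃ x ∈ proj σ W, y = fun a => x (j a)} =
      {y : Fin l → ℂ | ∃ x ∈ W, y = fun a => x (σ (j a))} := by
    ext y
    constructor
    · rintro ⟨_, ⟨x, hx, rfl⟩, rfl⟩
      exact ⟨x, hx, rfl⟩
    · rintro ⟨x, hx, rfl⟩
      exact ⟨_, ⟨x, hx, rfl⟩, rfl⟩
  rw [cp, cp, h]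

/-- **the Zilber-Pink statement for curves over `Qb` with linked coordinates** -/
theorem main_lk (hp : PairC L) (hW : Pool.Agent.Hhelper14.ZPL.IsIrredClosed W) (hWk : KClosed W)
    (hdim : Pool.Agent.Hhelper14.ZPL.dim W = 1)
    (h3 : ∀ i : Fin 3 → Fin n, Function.Injective i → (∀ a, NonC W (i a)) → Tri L (cp i W))
    (h4 : ∀ i : Fin 4 → Fin n, Function.Injective i → (∀ a, NonC W (i a)) →
      L (cp i W) 0 1 ∨ L (cp i W) 2 3) : FinAtypical W := by
  obtain ⟨m, σ, c, hσ, hc, hnc⟩ := exists_sigma W (irred_nonempty hW)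
  refine main_c hW hWk hdim hσ hc hnc ZG.cmAll (fun _ hx => ZG.cm_alg hx) (fun hcrv => ?_) fun hcrv => ?_
  · intro i hi
    refine t1_lk hp hcrv i hi ?_
    rw [cp_projσ]
    exact h3 (fun a => σ (i a)) (hσ.comp hi) fun a => hnc _
  · intro i hi
    refine t2_lk hp hcrv i hi ?_
    rw [cp_projσ]
    exact h4 (fun a => σ (i a)) (hσ.comp hi) fun a => hnc _

end Pool.Agent.LGO.LK
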