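import Mathlib
import Pool.Agent.LGO.LK.Main
import Pool.Agent.LGO.FC.MainC

/-!
# LGO/LK: the Zilber-Pink statement for curves over `ℂ` with linked coordinates, constants allowed (MP_d83ecd_ag)
-/

namespace Pool.Agent.LGO.LK

open MvPolynomial UpperHalfPlane Pool.Agent.Hhelper14.ZP Pool.Agent.Hhelper14.ZPL Pool.Agent.LGO
  Pool.Agent.LGO.ZF Pool.Agent.LGO.ZG Pool.Agent.LGO.ZV Pool.Agent.LGO.PWG Pool.Agent.LGO.FC
  Pool.Agent.LGO.KC Pool.Agent.ZPE

variable {n m : ℕ} {W : Set (Fin n → ℂ)} {L : ∀ {n : ℕ}, Set (Fin n → ℂ) → Fin n → Fin n → Prop}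

theorem coord_closed (k : Fin m) (c : ℂ) : IsZClosed {y : Fin m → ℂ | y k = c} := by
  refine Set.Subset.antisymm ?_ (subset_closure' _)
  intro x hx
  rw [MvPolynomial.mem_zeroLocus_iff] at hx
  have h1 := hx (MvPolynomial.X k - MvPolynomial.C c) (by
    rw [MvPolynomial.mem_vanishingIdeal_iff]
    intro y hy
    have hy' : y k = c := hy
    simp [hy'])
  have h2 : x k - c = 0 := by simpa using h1
  exact sub_eq_zero.1 h2

theorem nonC_of {i : Fin m → Fin n} {a : Fin m} (h : NonC (cp i W) a) : NonC W (i a) := by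
  intro c
  by_contra hcon
  push Not at hcon
  obtain ⟨y, hy, hne⟩ := h c
  exact hne (cp_sub (coord_closed a c) (fun x hx => hcon x hx) hy)

/-- **the Zilber-Pink statement for curves over `ℂ` with linked coordinates** -/
theorem main_lkC (hp : PairC L) (hW : Pool.Agent.Hhelper14.ZPL.IsIrredClosed W)
    (hdim : Pool.Agent.Hhelper14.ZPL.dim W = 1)
    (h3 : ∀ i : Fin 3 → Fin n, Function.Injective i → (∀ a, NonC W (i a)) → KClosed (cp i W) →
      Tri L (cp i W))
    (h4 : ∀ i : Fin 4 → Fin n, Function.Injective i → (∀ a, NonC W (i a)) → KClosed (cp i W) →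
      L (cp i W) 0 1 ∨ L (cp i W) 2 3) : FinAtypical W := by
  refine main_C hW hdim fun m i hi hcrv => ⟨fun j hj => ?_, fun j hj => ?_⟩
  · refine t1_lk hp hcrv j hj ?_
    have hk := cp_kclosed hcrv.kcl j
    rw [cp_cp] at hk ⊢
    exact h3 (fun a => i (j a)) (hi.comp hj) (fun a => nonC_of (hcrv.nc (j a))) hk
  · refine t2_lk hp hcrv j hj ?_
    have hk := cp_kclosed hcrv.kcl j
    rw [cp_cp] at hk ⊢
    exact h4 (fun a => i (j a)) (hi.comp hj) (fun a => nonC_of (hcrv.nc (j a))) hk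

end Pool.Agent.LGO.LK
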