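import Mathlib
import Pool.Agent.LGO.LK.MainC
import Pool.Agent.LGO.RU.Fin

/-!
# LGO/LK: the Zilber-Pink statement for curves over `ℂ` from conditions on the projections to three and four coordinates (MP_d83ecd_ag)

`TriP C`: the curve `C ⊆ ℂ³` has finitely many points with three isogenous coordinates without complex multiplication; `QdP C`: the curve `C ⊆ ℂ⁴` has
finitely many points with `x 0 ~ x 1`, `x 2 ~ x 3`, without complex multiplication.  `main_gen`: it is enough to know this for the projections which are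
curves over `Qb` (with nonconstant coordinates, no two modular related).  `pairC_pole`, `pairC_linked`: Theorem RU.
-/

namespace Pool.Agent.LGO.LK

open MvPolynomial UpperHalfPlane Pool.Agent.Hhelper14.ZP Pool.Agent.Hhelper14.ZPL Pool.Agent.LGO
  Pool.Agent.LGO.ZF Pool.Agent.LGO.ZG Pool.Agent.LGO.ZV Pool.Agent.LGO.PWG Pool.Agent.LGO.FC
  Pool.Agent.LGO.KC Pool.Agent.ZPE

variable {n m : ℕ} {V W : Set (Fin n → ℂ)}

/-- finitely many isogenous triples -/
def TriP (C : Set (Fin 3 → ℂ)) : Prop :=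
  {x ∈ C | (∀ a, NCM (x a)) ∧ HeckeRel (x 0) (x 1) ∧ HeckeRel (x 0) (x 2)}.Finite

/-- finitely many points with two isogenous pairs -/
def QdP (C : Set (Fin 4 → ℂ)) : Prop :=
  {x ∈ C | (∀ a, NCM (x a)) ∧ HeckeRel (x 0) (x 1) ∧ HeckeRel (x 2) (x 3)}.Finite

theorem t1_gen (h : ZV.Crv V) (i : Fin 3 → Fin n) (hi : TriP (cp i V)) :
    {x ∈ V | (∀ a, NCM (x (i a))) ∧ HeckeRel (x (i 0)) (x (i 1)) ∧ HeckeRel (x (i 0)) (x (i 2))}.Finite := by
  refine cp_fin (i := i) h.irr h.dim ⟨0, h.nc _⟩ hi ?_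
  rintro x ⟨hx, h2, h3, h4⟩
  exact ⟨hx, cp_mem hx, h2, h3, h4⟩

theorem t2_gen (h : ZV.Crv V) (i : Fin 4 → Fin n) (hi : QdP (cp i V)) :
    {x ∈ V | (∀ a, NCM (x (i a))) ∧ HeckeRel (x (i 0)) (x (i 1)) ∧ HeckeRel (x (i 2)) (x (i 3))}.Finite := by
  refine cp_fin (i := i) h.irr h.dim ⟨0, h.nc _⟩ hi ?_
  rintro x ⟨hx, h2, h3, h4⟩
  exact ⟨hx, cp_mem hx, h2, h3, h4⟩

/-- **the Zilber-Pink statement for curves over `ℂ`**, from the projections to three and four coordinates -/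
theorem main_gen (hW : Pool.Agent.Hhelper14.ZPL.IsIrredClosed W)
    (hdim : Pool.Agent.Hhelper14.ZPL.dim W = 1)
    (h3 : ∀ i : Fin 3 → Fin n, Function.Injective i → (∀ a, NonC W (i a)) → ZV.Crv (cp i W) → TriP (cp i W))
    (h4 : ∀ i : Fin 4 → Fin n, Function.Injective i → (∀ a, NonC W (i a)) → ZV.Crv (cp i W) → QdP (cp i W)) :
    FinAtypical W := by
  refine main_C hW hdim fun m i hi hcrv => ⟨fun j hj => ?_, fun j hj => ?_⟩
  · refine t1_gen hcrv j ?_
    have hk := crv_cp hcrv (by norm_num) hj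
    rw [cp_cp] at hk ⊢
    exact h3 (fun a => i (j a)) (hi.comp hj) (fun a => nonC_of (hcrv.nc (j a))) hk
  · refine t2_gen hcrv j ?_
    have hk := crv_cp hcrv (by norm_num) hj
    rw [cp_cp] at hk ⊢
    exact h4 (fun a => i (j a)) (hi.comp hj) (fun a => nonC_of (hcrv.nc (j a))) hk

/-- **Theorem RU** -/
theorem pairC_pole : PairC CPole := by
  intro n V a b hab h hl
  obtain ⟨P, hP, ha, hb⟩ := CPole.seq hl
  exact (RU.pair_pole h hab P hP ha hb).1

/-- the pair theorem for linked coordinates -/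
theorem pairC_linked : PairC Linked := pairC_of pairC_pole

theorem triP_pair {C : Set (Fin 3 → ℂ)} (h : ZV.Crv C)
    (hp : PairHt C 0 1 ∨ PairHt C 0 2 ∨ PairHt C 1 2) : TriP C := t1_one h id Function.injective_id hp

theorem qdP_pair {C : Set (Fin 4 → ℂ)} (h : ZV.Crv C) (hp : PairHt C 0 1 ∨ PairHt C 2 3) : QdP C :=
  t2_one h id Function.injective_id hp

theorem triP_linked {C : Set (Fin 3 → ℂ)} (h : ZV.Crv C)
    (hp : Linked C 0 1 ∨ Linked C 0 2 ∨ Linked C 1 2) : TriP C :=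
  triP_pair h (hp.imp (pairC_linked _ _ _ _ (by decide) h) fun hp =>
    hp.imp (pairC_linked _ _ _ _ (by decide) h) (pairC_linked _ _ _ _ (by decide) h))

theorem qdP_linked {C : Set (Fin 4 → ℂ)} (h : ZV.Crv C) (hp : Linked C 0 1 ∨ Linked C 2 3) : QdP C :=
  qdP_pair h (hp.imp (pairC_linked _ _ _ _ (by decide) h) (pairC_linked _ _ _ _ (by decide) h))

/-- the residual triples -/
theorem triP_res {C : Set (Fin 3 → ℂ)} (h : ZV.Crv C) (hr : Res C) : TriP C := by
  obtain ⟨⟨Q, hQ0, hQ⟩, hr⟩ := hr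
  have h1 := fin_flag h.irr h.kcl h.dim id h.nc h.nomod hQ0 hQ (Or.inr (Or.inr (Or.inl hr)))
  refine h1.subset ?_
  rintro x ⟨hx, h2, h3, h4⟩
  refine ⟨hx, ?_, h3, h4⟩
  have h5 := h2 0
  rw [ncm_iff] at h5
  intro τ hτ hcm
  exact h5 ⟨τ, hcm, hτ.symm⟩

end Pool.Agent.LGO.LK
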