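import Mathlib
import Pool.Agent.LGO.LK.Gen
import Pool.Agent.LGO.End.Real

/-!
# LGO/LK: linked coordinates, the form used in the final statement (MP_d83ecd_ag)
-/

namespace Pool.Agent.LGO.LK

open MvPolynomial UpperHalfPlane Filter Topology Pool.Agent.Hhelper14.ZP Pool.Agent.Hhelper14.ZPL
  Pool.Agent.LGO Pool.Agent.LGO.ZF Pool.Agent.LGO.ZG Pool.Agent.LGO.ZV Pool.Agent.LGO.PWG
  Pool.Agent.LGO.FC Pool.Agent.LGO.KC Pool.Agent.LGO.TG Pool.Agent.ZPE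

variable {n m : ℕ} {V W : Set (Fin n → ℂ)}

/-- **linked coordinates** of a curve `C`: (i) `C` has a point at infinity where `x_a` and `x_b` are both infinite,
or (ii) the degrees of `x_a` and `x_b` on `C` (numbers of points of a general fibre) are different, or
(iii) a positive multiple of the difference of the pole divisors of `x_a` and `x_b` is principal: there are
`p ≥ 1` and polynomials `F`, `G` over the algebraic numbers such that, outside a finite subset of `C`, `F` and `G` do not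
vanish and `‖F‖ max(1, ‖x_a‖)^p / (‖G‖ max(1, ‖x_b‖)^p)` is between two positive constants. -/
def Lnk (C : Set (Fin n → ℂ)) (a b : Fin n) : Prop :=
  (∀ R : ℝ, ∃ x ∈ C, R < ‖x a‖ ∧ R < ‖x b‖) ∨
  (∃ d₁ d₂ : ℕ, {c : ℂ | {x ∈ C | x a = c}.ncard ≠ d₁}.Finite ∧
    {c : ℂ | {x ∈ C | x b = c}.ncard ≠ d₂}.Finite ∧ d₁ ≠ d₂) ∨
  ∃ (p : ℕ) (F G : MvPolynomial (Fin n) Qb) (B : ℝ), 0 < p ∧
    {x ∈ C | ¬ ((aeval x F : ℂ) ≠ 0 ∧ (aeval x G : ℂ) ≠ 0 ∧
      ‖(aeval x F : ℂ)‖ * max 1 ‖x a‖ ^ p ≤ B * (‖(aeval x G : ℂ)‖ * max 1 ‖x b‖ ^ p) ∧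
      ‖(aeval x G : ℂ)‖ * max 1 ‖x b‖ ^ p ≤ B * (‖(aeval x F : ℂ)‖ * max 1 ‖x a‖ ^ p))}.Finite

theorem lnk_linked {a b : Fin n} (h : Lnk V a b) : Linked V a b := by
  rcases h with h | ⟨d₁, d₂, h1, h2, h3⟩ | ⟨p, F, G, B, hp, hE⟩
  · exact Or.inl h
  · exact Or.inr (Or.inl ⟨d₁, d₂, h1, h2, h3⟩)
  · refine Or.inr (Or.inr (Or.inl ⟨F, G, p, B, _, ⟨hp, hE, ?_, ?_, ?_⟩, hp, hE, ?_, ?_, ?_⟩))
    all_goals
      intro x hx hxE
      have h1 := not_not.1 fun h2 => hxE ⟨hx, h2⟩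
    · exact h1.1
    · exact h1.2.1
    · exact h1.2.2.1
    · exact h1.2.1
    · exact h1.1
    · exact h1.2.2.2

theorem lnk_symm {a b : Fin n} (h : Lnk V a b) : Lnk V b a := by
  rcases h with h | ⟨d₁, d₂, h1, h2, h3⟩ | ⟨p, F, G, B, hp, hE⟩
  · exact Or.inl fun R => by
      obtain ⟨x, hx, h1, h2⟩ := h R
      exact ⟨x, hx, h2, h1⟩
  · exact Or.inr (Or.inl ⟨d₂, d₁, h2, h1, h3.symm⟩)
  · refine Or.inr (Or.inr ⟨p, G, F, B, hp, hE.subset ?_⟩)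
    rintro x ⟨hx, h1⟩
    exact ⟨hx, fun h2 => h1 ⟨h2.2.1, h2.1, h2.2.2.2, h2.2.2.1⟩⟩

theorem pair_lnk {a b : Fin n} (h : ZV.Crv V) (hab : a ≠ b) (hl : Lnk V a b) : PairHt V a b :=
  pairC_linked n V a b hab h (lnk_linked hl)

/-- three coordinates -/
theorem triP_lnk {C : Set (Fin 3 → ℂ)} (h : ZV.Crv C) {a b : Fin 3} (hab : a ≠ b) (hp : Lnk C a b) :
    TriP C := by
  have h1 : PairHt C a b := pair_lnk h hab hp
  have h2 : PairHt C b a := pair_lnk h hab.symm (lnk_symm hp)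
  refine triP_pair h ?_
  fin_cases a <;> fin_cases b
  · exact absurd rfl hab
  · exact Or.inl h1
  · exact Or.inr (Or.inl h1)
  · exact Or.inl h2
  · exact absurd rfl hab
  · exact Or.inr (Or.inr h1)
  · exact Or.inr (Or.inl h2)
  · exact Or.inr (Or.inr h2)
  · exact absurd rfl hab

/-- three coordinates, all conditions -/
theorem triP_all {C : Set (Fin 3 → ℂ)} (h : ZV.Crv C) (hp : ∃ a b : Fin 3, a ≠ b ∧
    (Lnk C a b ∨ CMInf C a b ∨ IsoInf C a ∨ (RealInf1 C a ∧ RealInf1 C b))) : TriP C := by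
  obtain ⟨a, b, hab, hp | hp | hp | ⟨hp, hq⟩⟩ := hp
  · exact triP_lnk h hab hp
  · exact triP_cm h hab hp
  · exact triP_iso h hp
  · exact triP_real h hab hp hq

/-- four coordinates -/
theorem qdP_lnk {C : Set (Fin 4 → ℂ)} (h : ZV.Crv C) (hp : Lnk C 0 1 ∨ Lnk C 2 3) : QdP C :=
  qdP_pair h (hp.imp (pair_lnk h (by decide)) (pair_lnk h (by decide)))

end Pool.Agent.LGO.LK
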