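import Mathlib
import Pool.Agent.LGO.LK.Lnk
import Pool.Agent.LGO.RCM.Main

/-!
# LGO/LK: linked coordinates, with points at infinity where one coordinate is infinite and the other one a singular
modulus (MP_d83ecd_ag)
-/

namespace Pool.Agent.LGO.LK

open MvPolynomial UpperHalfPlane Filter Topology Pool.Agent.Hhelper14.ZP Pool.Agent.Hhelper14.ZPL
  Pool.Agent.LGO Pool.Agent.LGO.ZF Pool.Agent.LGO.ZG Pool.Agent.LGO.ZV Pool.Agent.LGO.PWG
  Pool.Agent.LGO.FC Pool.Agent.LGO.KC Pool.Agent.LGO.TG Pool.Agent.ZPE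

variable {n m : ℕ} {V W : Set (Fin n → ℂ)}

/-- **linked coordinates** of a curve `C`: (i) a common pole, (ii) different degrees, (iii) pole divisors which differ
by a torsion class (`Lnk`), or (iv) `C` has a point at infinity where `x_a` is infinite and `x_b` is a singular modulus,
or the other way round. -/
def LnkC (C : Set (Fin n → ℂ)) (a b : Fin n) : Prop := Lnk C a b ∨ CMInf C a b ∨ CMInf C b a

theorem lnkC_symm {a b : Fin n} (h : LnkC V a b) : LnkC V b a := by
  rcases h with h | h | h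
  · exact Or.inl (lnk_symm h)
  · exact Or.inr (Or.inr h)
  · exact Or.inr (Or.inl h)

theorem pair_lnkC {a b : Fin n} (h : ZV.Crv V) (hab : a ≠ b) (hl : LnkC V a b) : PairHt V a b := by
  rcases hl with hl | ⟨P, τ, hτ, hP, h1, h2⟩ | ⟨P, τ, hτ, hP, h1, h2⟩
  · exact pair_lnk h hab hl
  · exact (RCM.pair_cm h hab (fun h3 => h3 τ rfl hτ) P hP h1 h2).1
  · exact (RCM.pair_cm h hab.symm (fun h3 => h3 τ rfl hτ) P hP h1 h2).2

/-- three coordinates -/
theorem triP_lnkC {C : Set (Fin 3 → ℂ)} (h : ZV.Crv C) {a b : Fin 3} (hab : a ≠ b) (hp : LnkC C a b) :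
    TriP C := by
  have h1 : PairHt C a b := pair_lnkC h hab hp
  have h2 : PairHt C b a := pair_lnkC h hab.symm (lnkC_symm hp)
  refine triP_pair h ?_
  fin_cases a <;> fin_cases b
  · exact absurd rfl hab
  · exact Or.inl h1
  · exact Or.inr (Or.inl h1)
  · exact Or.inl h2
  · exact absurd rfl hab
  · exact Or.inr (Or.inr h1)
  · exact Or.inr (Or.inl h2)
  · exact Or.inr (Or.inr h2)
  · exact absurd rfl hab

/-- three coordinates, all conditions -/
theorem triP_allC {C : Set (Fin 3 → ℂ)} (h : ZV.Crv C) (hp : ∃ a b : Fin 3, a ≠ b ∧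
    (LnkC C a b ∨ IsoInf C a ∨ (RealInf1 C a ∧ RealInf1 C b))) : TriP C := by
  obtain ⟨a, b, hab, hp | hp | ⟨hp, hq⟩⟩ := hp
  · exact triP_lnkC h hab hp
  · exact triP_iso h hp
  · exact triP_real h hab hp hq

/-- four coordinates -/
theorem qdP_lnkC {C : Set (Fin 4 → ℂ)} (h : ZV.Crv C) (hp : LnkC C 0 1 ∨ LnkC C 2 3) : QdP C :=
  qdP_pair h (hp.imp (pair_lnkC h (by decide)) (pair_lnkC h (by decide)))

end Pool.Agent.LGO.LK
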