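import Mathlib
import Pool.Agent.LGO.LK.Gen
import Pool.Agent.LGO.FC.FinC

/-!
# LGO/LK: curves over `ℂ` with rational projections to coordinate planes (MP_d83ecd_ag)

`RatPair V a b`: the closure of the projection of `V` to the plane of the coordinates `a`, `b` is a rational curve over `ℂ`.  `pair_rat`: the pair
theorem.  `main_ratP`: the Zilber-Pink statement for the curves over `ℂ` such that of any three nonconstant coordinates two, and of any two
disjoint pairs of nonconstant coordinates one, have a rational plane projection.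
-/

namespace Pool.Agent.LGO.LK

open MvPolynomial UpperHalfPlane Pool.Agent.Hhelper14.ZP Pool.Agent.Hhelper14.ZPL Pool.Agent.LGO
  Pool.Agent.LGO.ZF Pool.Agent.LGO.ZG Pool.Agent.LGO.ZV Pool.Agent.LGO.PWG Pool.Agent.LGO.FC
  Pool.Agent.LGO.KC Pool.Agent.ZPE

variable {n m : ℕ} {V W : Set (Fin n → ℂ)}

/-- the closure of the projection to the plane of the coordinates `a`, `b` is a rational curve over `ℂ` (or a point) -/
def RatPair (V : Set (Fin n → ℂ)) (a b : Fin n) : Prop :=
  ∃ A B : Fin 2 → Polynomial ℂ, (∀ i, B i ≠ 0) ∧ cp ![a, b] V = ratCurve A B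

theorem pair_rat0 {C : Set (Fin 2 → ℂ)} (h : ZV.Crv C) {A B : Fin 2 → Polynomial ℂ}
    (hB : ∀ i, B i ≠ 0) (hC : C = ratCurve A B) : PairHt C 0 1 := by
  obtain ⟨A', B', hB', hE⟩ := rat_desc hB (hC ▸ h.kcl)
  choose A₁ B₁ h1 h2 h3 using fun j => KC.reduce (A' j) (B' j) (hB' j)
  rw [KC.curve_congr hB' h1 h3] at hE
  rw [← hC] at hE
  have hR : Rat0 A₁ B₁ := by
    refine ⟨h1, h2, fun a => ?_⟩
    by_contra h0
    obtain ⟨c', hc'⟩ := KC.const_of_deg (A := A₁) (B := B₁) (i := a) (by omega)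
    obtain ⟨x, hx, hne⟩ := h.nc a c'
    rw [hE] at hx
    exact hne (hc' x hx)
  obtain ⟨E, hEf, hpar⟩ := rat_par hR
  have halg : ∀ P : Polynomial Qb, AlgCoeff (P.map (algebraMap Qb ℂ)) := fun P k => by
    rw [Polynomial.coeff_map]
    exact mem_algebraicClosure_iff.mp (P.coeff k).2
  have hrf : ∀ a, RFun ((A₁ a).map (algebraMap Qb ℂ)) ((B₁ a).map (algebraMap Qb ℂ)) := fun a =>
    ⟨halg _, halg _, (h2 a).map (Polynomial.mapRingHom (algebraMap Qb ℂ)), fun h0 =>
      h1 a ((Polynomial.map_eq_zero _).mp h0)⟩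
  refine pairHt_all h (by decide) ⟨_, _, _, _, E, hEf, hrf 0, hrf 1, fun x hx hxE => ?_⟩
  rw [hE] at hx
  obtain ⟨t, ht⟩ := hpar x hx hxE
  refine ⟨t, ?_, ?_⟩
  all_goals
    rw [ValAt, Polynomial.eval_map_algebraMap, Polynomial.eval_map_algebraMap]
    exact ht _

theorem pair_rat (h : ZV.Crv V) {a b : Fin n} (hab : a ≠ b) (hr : RatPair V a b) : PairHt V a b := by
  have hi : Function.Injective ![a, b] := by
    intro x y hxy
    fin_cases x <;> fin_cases y <;> simp_all
  obtain ⟨A, B, hB, hE⟩ := hr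
  have h1 := pair_rat0 (crv_cp h (by norm_num) hi) hB hE
  exact pair_cp h h1

theorem ratPair_cp {i : Fin m → Fin n} {a b : Fin m} (h : RatPair V (i a) (i b)) :
    RatPair (cp i V) a b := by
  obtain ⟨A, B, hB, hE⟩ := h
  refine ⟨A, B, hB, ?_⟩
  rw [cp_cp, ← hE]
  congr 1
  funext x
  fin_cases x <;> rfl

theorem ratPair_symm {a b : Fin n} (h : RatPair V a b) : RatPair V b a := by
  obtain ⟨A, B, hB, hE⟩ := h
  refine ⟨fun i => A (![1, 0] i), fun i => B (![1, 0] i), fun i => hB _, ?_⟩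
  have h1 : cp ![b, a] V = cp (![1, 0] : Fin 2 → Fin 2) (cp ![a, b] V) := by
    rw [cp_cp]
    congr 1
    funext x
    fin_cases x <;> rfl
  rw [h1, hE, ratC_cp hB]

/-- **the Zilber-Pink statement for curves with rational plane projections** -/
theorem main_ratP (hW : Pool.Agent.Hhelper14.ZPL.IsIrredClosed W)
    (hdim : Pool.Agent.Hhelper14.ZPL.dim W = 1)
    (h3 : ∀ i : Fin 3 → Fin n, Function.Injective i → (∀ a, NonC W (i a)) →
      ∃ a b : Fin 3, a ≠ b ∧ RatPair W (i a) (i b))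
    (h4 : ∀ i : Fin 4 → Fin n, Function.Injective i → (∀ a, NonC W (i a)) →
      RatPair W (i 0) (i 1) ∨ RatPair W (i 2) (i 3)) : FinAtypical W := by
  refine main_gen hW hdim (fun i hi hc hk => triP_pair hk ?_) fun i hi hc hk => qdP_pair hk ?_
  · obtain ⟨a, b, hab, hr⟩ := h3 i hi hc
    have h1 := pair_rat hk hab (ratPair_cp hr)
    have h2 := pair_rat hk hab.symm (ratPair_cp (ratPair_symm hr))
    fin_cases a <;> fin_cases b
    · exact absurd rfl hab
    · exact Or.inl h1
    · exact Or.inr (Or.inl h1)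
    · exact Or.inl h2
    · exact absurd rfl hab
    · exact Or.inr (Or.inr h1)
    · exact Or.inr (Or.inl h2)
    · exact Or.inr (Or.inr h2)
    · exact absurd rfl hab
  · rcases h4 i hi hc with hr | hr
    · exact Or.inl (pair_rat hk (by decide) (ratPair_cp hr))
    · exact Or.inr (pair_rat hk (by decide) (ratPair_cp hr))

/-- all rational curves -/
theorem main_ratC' {A B : Fin n → Polynomial ℂ} (hB : ∀ i, B i ≠ 0)
    (hc : ¬ ∀ i, ∃ c : ℂ, ∀ x ∈ ratCurve A B, x i = c) : FinAtypical (ratCurve A B) := by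
  push Not at hc
  have h : ∀ a b : Fin n, RatPair (ratCurve A B) a b := fun a b =>
    ⟨fun k => A (![a, b] k), fun k => B (![a, b] k), fun k => hB _, ratC_cp hB ![a, b]⟩
  exact main_ratP (ratC_irr hB) (ratC_dim hB hc) (fun i _ _ => ⟨0, 1, by decide, h _ _⟩) fun i _ _ => Or.inl (h _ _)

end Pool.Agent.LGO.LK
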